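import Pool.Agent.S7C.Br

/-! S7 (MP_13664e_an): the theorems of block C in the form of the contract, from the library `S7C`. -/

set_option autoImplicit false

namespace Pool.Agent.S7

open MeasureTheory Filter Topology
open scoped ENNReal

section main

variable {K : Type*} [CommGroup K] [TopologicalSpace K] [IsTopologicalGroup K] [CompactSpace K]
  [T2Space K] [SecondCountableTopology K] [MeasurableSpace K] [BorelSpace K]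
  {u : K} {m : Measure K} [IsProbabilityMeasure m] [m.IsHaarMeasure]

variable {Z : Type*} [MeasurableSpace Z] [StandardBorelSpace Z] {M : Measure Z} {S : Z ≃ᵐ Z}
  {y : Z → K} {s l : Z → ℝ}
  {E : Type*} [NormedAddCommGroup E] [InnerProductSpace ℂ E] [FiniteDimensional ℂ E]
  [MeasurableSpace E] [BorelSpace E]

/-- the averages converge -/
theorem TJ_lim (hK : KD K u) (hD : DS u m M S y s l) {g : K → (E ≃ₗᵢ[ℂ] E)} (hg : FM g) (α β : ℝ)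
    {a : K → E} (ha : BMf a) :
    Tendsto (fun H : ℕ => toH M (av u S y s l g α β a H)) atTop (𝓝 (TJ M u S y s l g α β a)) :=
  S7C.TJ_lim hK hD hg α β ha

/-- van der Corput: `‖T_J a‖ ≤ ‖(1/H) ∑ U^h w‖` -/
theorem TJ_le_av (hK : KD K u) (hD : DS u m M S y s l) {g : K → (E ≃ₗᵢ[ℂ] E)} (hg : FM g) (α β : ℝ)
    {a : K → E} (ha : BMf a) {H : ℕ} (hH : 1 ≤ H) :
    ‖TJ M u S y s l g α β a‖ ≤ ‖toH M (av u S y s l g α β a H)‖ :=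
  S7C.TJ_le_av hK hD hg α β ha hH

/-- C6 -/
theorem BJ_le (hK : KD K u) (hD : DS u m M S y s l) {g : K → (E ≃ₗᵢ[ℂ] E)} (hg : FM g) {α β : ℝ}
    (hαβ : α ≤ β) {a b : K → E} (ha : BMf a) (hb : BMf b) :
    ‖BJ M u S y s l g α β a b‖ ≤ (β - α) * (∫ y, ‖a y‖ ∂m) * (∫ y, ‖b y‖ ∂m) :=
  S7C.BJ_le hK hD hg hαβ ha hb

theorem BJ_cont (hK : KD K u) (hD : DS u m M S y s l) {g : K → (E ≃ₗᵢ[ℂ] E)} (hg : FM g)
    {α β α' β' : ℝ} (hαβ : α ≤ β) (hαβ' : α' ≤ β') {a b : K → E} (ha : BMf a) (hb : BMf b) :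
    ‖BJ M u S y s l g α β a b - BJ M u S y s l g α' β' a b‖ ≤
      (|α - α'| + |β - β'|) * (∫ y, ‖a y‖ ∂m) * (∫ y, ‖b y‖ ∂m) :=
  S7C.BJ_cont hK hD hg hαβ hαβ' ha hb

/-- monotonicity in `J` -/
theorem TJ_mono (hK : KD K u) (hD : DS u m M S y s l) {g : K → (E ≃ₗᵢ[ℂ] E)} (hg : FM g)
    {α β α' β' : ℝ} (h1 : α' ≤ α) (h2 : β ≤ β') {a : K → E} (ha : BMf a) :
    ‖TJ M u S y s l g α β a‖ ≤ ‖TJ M u S y s l g α' β' a‖ :=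
  S7C.TJ_mono hK hD hg h1 h2 ha

/-- C7: gauge / intertwining -/
theorem BJ_intw (hK : KD K u) (hD : DS u m M S y s l) {g g' τ : K → (E ≃ₗᵢ[ℂ] E)} (hg : FM g)
    (hg' : FM g') (hτ : FM τ) (h : ∀ᵐ y ∂m, τ (u * y) * g y = g' y * τ y) (α β : ℝ)
    {a b : K → E} (ha : BMf a) (hb : BMf b) :
    BJ M u S y s l g' α β (fun y => τ y (a y)) (fun y => τ y (b y)) = BJ M u S y s l g α β a b :=
  S7C.BJ_intw hK hD hg hg' hτ h α β ha hb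

/-- C8: reduction to minimal irreducible cocycles -/
theorem reduce (hK : KD K u) (hD : DS u m M S y s l) (r : ℕ) (σ : K → Equiv.Perm (Fin r))
    (hσ : FM σ) (a : K → Fin r → ℂ) (ha : Measurable a) (hb : ∃ C : ℝ, ∀ y i, ‖a y i‖ ≤ C) (α β : ℝ)
    (i : Fin r) (hne : ¬ Tendsto (fun H : ℕ => ∫ z in s ⁻¹' Set.Ioc α β,
      ‖(H : ℂ)⁻¹ * ∑ h ∈ Finset.range H,
        (l (S^[h] z) : ℂ) * a (u ^ h * y z) (itc u σ h (y z) i)‖ ^ 2 ∂M) atTop (𝓝 0)) :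
    ∃ (Γ : Subgroup (Equiv.Perm (Fin r))) (c : K → Γ) (d : ℕ)
      (ρ : Γ →* (EuclideanSpace ℂ (Fin d) ≃ₗᵢ[ℂ] EuclideanSpace ℂ (Fin d)))
      (b : K → EuclideanSpace ℂ (Fin d)),
      FM c ∧ Mi u m c ∧ Ir ρ ∧ BMf b ∧ TJ M u S y s l (fun y => ρ (c y)) α β b ≠ 0 :=
  S7C.reduce hK hD r σ hσ a ha hb α β i hne

variable {Γ : Type*} [Group Γ] [Finite Γ]

/-- C2 -/
theorem Mi_Dq (hK : KD K u) {c : K → Γ} (hc : FM c) (hm : Mi u m c) {q : ℕ} (hq : 1 ≤ q) :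
    Mi u m (Dq u c q) ∧ FM (Dq u c q) :=
  S7C.Mi_Dq hK hc hm hq

/-- C4 (ii) -/
theorem schur (hK : KD K u) (ρ : Γ →* (E ≃ₗᵢ[ℂ] E)) (hρ : Ir ρ) {c c' : K → Γ} (hc : FM c)
    (hc' : FM c') (hm : Mi u m c) (hm' : Mi u m c')
    (h : ¬ Disj u m (fun y => ρ (c y)) (fun y => ρ (c' y))) :
    ∃ τ : K → (E ≃ₗᵢ[ℂ] E), (Measurable fun y => ((τ y : E ≃L[ℂ] E) : E →L[ℂ] E)) ∧
      ∀ᵐ y ∂m, τ (u * y) * ρ (c y) = ρ (c' y) * τ y :=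
  S7C.schur hK ρ hρ hc hc' hm hm' h

/-- C10: Bessel -/
theorem bessel (hK : KD K u) (hD : DS u m M S y s l) (ρ : Γ →* (E ≃ₗᵢ[ℂ] E)) (hρ : Ir ρ)
    {ι κ : Type*} [Fintype ι] [Fintype κ] [DecidableEq κ] (c : ι → K → Γ) (hc : ∀ i, FM (c i))
    (hm : ∀ i, Mi u m (c i))
    (hd : ∀ i j, i ≠ j → Disj u m (fun y => ρ (c i y)) (fun y => ρ (c j y)))
    (a : ι → κ → K → E) (ha : ∀ i j, BMf (a i j))
    (ho : ∀ i j j', ∫ y, inner ℂ (a i j y) (a i j' y) ∂m = if j = j' then 1 else 0)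
    {α β : ℝ} (hαβ : α ≤ β) :
    ∑ i, ∑ j, (Module.finrank ℂ E : ℝ) * ‖TJ M u S y s l (fun y => ρ (c i y)) α β (a i j)‖ ^ 2 ≤
      β - α :=
  S7C.bessel_ hK hD ρ hρ c hc hm hd a ha ho hαβ

/-- C11: kernel -/
theorem exists_ker (hK : KD K u) (hD : DS u m M S y s l) (ρ : Γ →* (E ≃ₗᵢ[ℂ] E)) (hρ : Ir ρ)
    {c : K → Γ} (hc : FM c) (hm : Mi u m c) {α β : ℝ} (hαβ : α ≤ β) :
    ∃ Φ : K → (E →L[ℂ] Lp E 2 M), IsKer m M u S y s l (fun y => ρ (c y)) α β Φ :=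
  S7C.exists_ker hK hD ρ hρ hc hm hαβ

/-- C11, continuity in `J` -/
theorem ker_cont (hK : KD K u) (hD : DS u m M S y s l) {g : K → (E ≃ₗᵢ[ℂ] E)} (hg : FM g)
    {α β α' β' : ℝ} (hαβ : α ≤ β) (hαβ' : α' ≤ β') {Φ Φ' : K → (E →L[ℂ] Lp E 2 M)}
    (h : IsKer m M u S y s l g α β Φ) (h' : IsKer m M u S y s l g α' β' Φ') :
    ∀ᵐ y ∂m, ‖Φ y - Φ' y‖ ≤ Real.sqrt (|α - α'| + |β - β'|) :=
  S7C.ker_cont hK hD hg hαβ hαβ' h h'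

/-- C12: dilation -/
theorem BJ_dil (hK : KD K u) (hD : DS u m M S y s l) {g : K → (E ≃ₗᵢ[ℂ] E)} (hg : FM g) {q : ℕ}
    (hq : q.Prime) (α β : ℝ) {a b : K → E} (ha : BMf a) (hb : BMf b) :
    BJ M u S y s l (Dq u g q) (α - Real.log q) (β - Real.log q) a b =
      BJ M u S y s l g α β (Vq q a) (Vq q b) :=
  S7C.BJ_dil hK hD hg hq α β ha hb

theorem ker_Vq (hK : KD K u) (hD : DS u m M S y s l) {g : K → (E ≃ₗᵢ[ℂ] E)} (hg : FM g) {α β : ℝ}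
    {Φ : K → (E →L[ℂ] Lp E 2 M)} (h : IsKer m M u S y s l g α β Φ) {q : ℕ} (hq : 1 ≤ q)
    {a : K → E} (ha : BMf a) :
    TJ M u S y s l g α β (Vq q a) = ∫ y, Φ (y ^ q) (a y) ∂m :=
  S7C.ker_Vq hK hD hg h hq ha

/-- C13: equal Gram forms -/
theorem gram {H : Type*} [NormedAddCommGroup H] [InnerProductSpace ℂ H] [CompleteSpace H]
    {Ψ₁ Ψ₂ : K → (E →L[ℂ] H)} (h1 : StronglyMeasurable Ψ₁) (h2 : StronglyMeasurable Ψ₂)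
    (b1 : ∃ C : ℝ, ∀ y, ‖Ψ₁ y‖ ≤ C) (b2 : ∃ C : ℝ, ∀ y, ‖Ψ₂ y‖ ≤ C)
    (hG : ∀ a b : K → E, BMf a → BMf b → inner ℂ (∫ y, Ψ₁ y (a y) ∂m) (∫ y, Ψ₁ y (b y) ∂m) =
      inner ℂ (∫ y, Ψ₂ y (a y) ∂m) (∫ y, Ψ₂ y (b y) ∂m)) :
    ∃ N : Set K, m N = 0 ∧ ∀ x ∉ N, ∀ x' ∉ N, ∀ e e' : E,
      inner ℂ (Ψ₁ x e) (Ψ₁ x' e') = inner ℂ (Ψ₂ x e) (Ψ₂ x' e') :=
  S7C.gram_ h1 h2 b1 b2 hG

end main

end Pool.Agent.S7
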