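import Mathlib
import Pool.Agent.Sar.Defs

/-! S7 (MP_13664e_an): common definitions. See the page MP_13664e_an_FULL_helper5.md. -/

set_option autoImplicit false

namespace Pool.Agent.S7

open MeasureTheory Filter Topology
open scoped ENNReal

/-- (KD) -/
structure KD (K : Type*) [CommGroup K] [TopologicalSpace K] (u : K) : Prop where
  sep : ∀ x : K, (∀ χ : PontryaginDual K, χ x = 1) → x = 1
  dense : ∀ χ : PontryaginDual K, χ u = 1 → χ = 1
  div : ∀ n : ℕ, 1 ≤ n → ∀ χ : PontryaginDual K, ∃ ψ : PontryaginDual K, ψ ^ n = χ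
  roots : ∀ n : ℕ, 1 ≤ n → ∀ z : Circle, z ^ n = 1 → ∃ χ : PontryaginDual K, χ u = z

/-- torsion characters -/
def Tor {K : Type*} [CommGroup K] [TopologicalSpace K] (χ : PontryaginDual K) : Prop :=
  ∃ n : ℕ, 1 ≤ n ∧ χ ^ n = 1

/-- image of the `q`-th power map -/
def Kq (K : Type*) [CommGroup K] (q : ℕ) : Set K := Set.range (fun x : K => x ^ q)

open Classical in
/-- `q`-th root -/
noncomputable def rt {K : Type*} [CommGroup K] (q : ℕ) (y : K) : K :=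
  if h : ∃ x : K, x ^ q = y then h.choose else 1

/-- thin sets of natural numbers -/
def Thin (B : Set ℕ) : Prop :=
  ∃ C : ℝ, ∀ F : Finset ℕ, (↑F ⊆ B) → (∀ q ∈ F, q.Prime) → ∑ q ∈ F, (1 : ℝ) / q ≤ C

/-- dilation systems (DS) over `(K, u, m)` -/
structure DS {K Z : Type*} [CommGroup K] [MeasurableSpace K] [MeasurableSpace Z]
    (u : K) (m : Measure K) (M : Measure Z) (S : Z ≃ᵐ Z) (y : Z → K) (s l : Z → ℝ) : Prop where
  inv : MeasurePreserving S M M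
  ym : Measurable y
  sm : Measurable s
  lm : Measurable l
  l1 : ∀ z, l z = 1 ∨ l z = -1
  yS : ∀ z, y (S z) = u * y z
  sS : ∀ z, s (S z) = s z
  law : M.map (fun z => (y z, s z)) = m.prod volume
  dil : ∀ q : ℕ, q.Prime → ∃ D : Z → Z, Measurable D ∧
    (∀ z, y z ∈ Kq K q → y (D z) ^ q = y z ∧ s (D z) = s z - Real.log q ∧ l (D z) = - l z ∧
      D (S^[q] z) = S (D z)) ∧
    (M.restrict {z | y z ∈ Kq K q}).map D = ((q : ℝ≥0∞))⁻¹ • M
  atom : ∀ (w : Circle) (α β : ℝ), Tendsto (fun H : ℕ =>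
    ∫ z in s ⁻¹' Set.Ioc α β,
      ‖(H : ℂ)⁻¹ * ∑ h ∈ Finset.range H, (w : ℂ) ^ h * (l (S^[h] z) : ℂ)‖ ^ 2 ∂M) atTop (𝓝 0)

/-- iterated cocycle `c_h(y) = c(u^(h-1) y) ⋯ c(u y) c(y)` -/
def itc {K Γ : Type*} [Monoid K] [Monoid Γ] (u : K) (c : K → Γ) : ℕ → K → Γ
  | 0, _ => 1
  | h + 1, y => c (u ^ h * y) * itc u c h y

/-- dilated cocycle `(D_q c)(y) = c_q(y^q)` -/
def Dq {K Γ : Type*} [Monoid K] [Monoid Γ] (u : K) (c : K → Γ) (q : ℕ) (y : K) : Γ :=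
  itc u c q (y ^ q)

/-- minimal cocycles (ergodic skew product) with values in a finite group -/
def Mi {K Γ : Type*} [Monoid K] [MeasurableSpace K] [Group Γ] (u : K) (m : Measure K)
    (c : K → Γ) : Prop :=
  ∀ A : K → Set Γ, (∀ g, MeasurableSet {y | g ∈ A y}) →
    (∀ᵐ y ∂m, A (u * y) = (fun g => c y * g) '' A y) →
    (∀ᵐ y ∂m, A y = ∅) ∨ (∀ᵐ y ∂m, A y = Set.univ)

/-- bounded measurable functions -/
structure BMf {K E : Type*} [MeasurableSpace K] [NormedAddCommGroup E] [MeasurableSpace E]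
    (a : K → E) : Prop where
  meas : Measurable a
  bdd : ∃ C : ℝ, ∀ y, ‖a y‖ ≤ C

/-- finitely valued measurable functions -/
def FM {K X : Type*} [MeasurableSpace K] (f : K → X) : Prop :=
  (Set.range f).Finite ∧ ∀ x, MeasurableSet (f ⁻¹' {x})

/-- disjoint (unitary) cocycles: no bounded intertwiner -/
def Disj {K E : Type*} [Mul K] [MeasurableSpace K] [NormedAddCommGroup E] [InnerProductSpace ℂ E]
    (u : K) (m : Measure K) (g g' : K → (E ≃ₗᵢ[ℂ] E)) : Prop :=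
  ∀ N : K → (E →L[ℂ] E), Measurable N → (∃ C : ℝ, ∀ y, ‖N y‖ ≤ C) →
    (∀ᵐ y ∂m, ∀ v, N (u * y) (g y v) = g' y (N y v)) → ∀ᵐ y ∂m, N y = 0

/-- `Ψ` is an `L²` limit of trigonometric polynomials in torsion characters -/
def TorL {K V : Type*} [CommGroup K] [TopologicalSpace K] [MeasurableSpace K]
    [NormedAddCommGroup V] [NormedSpace ℂ V] (m : Measure K) (Ψ : K → V) : Prop :=
  ∀ ε : ℝ, 0 < ε → ∃ (n : ℕ) (χ : Fin n → PontryaginDual K) (v : Fin n → V), (∀ i, Tor (χ i)) ∧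
    ∫ y, ‖Ψ y - ∑ i, ((χ i y : Circle) : ℂ) • v i‖ ^ 2 ∂m ≤ ε ^ 2

section hilb

variable {E : Type*} [NormedAddCommGroup E] [InnerProductSpace ℂ E]

/-- Schur irreducible representations -/
def Ir {Γ : Type*} [Group Γ] (ρ : Γ →* (E ≃ₗᵢ[ℂ] E)) : Prop :=
  ∀ A : E →L[ℂ] E, (∀ g v, A (ρ g v) = ρ g (A v)) → ∃ t : ℂ, ∀ v, A v = t • v

variable {Z : Type*} [MeasurableSpace Z]

open Classical in
/-- the class in `L²` -/
noncomputable def toH (M : Measure Z) (f : Z → E) : Lp E 2 M :=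
  if h : MemLp f 2 M then h.toLp f else 0

variable {K : Type*} [CommGroup K]

/-- the averages `(1/H) ∑_{h < H} U^h w` of `w(z) = 1_J(s z) l(z) a(y z)`, `J = (α, β]` -/
noncomputable def av (u : K) (S : Z ≃ᵐ Z) (y : Z → K) (s l : Z → ℝ) (g : K → (E ≃ₗᵢ[ℂ] E))
    (α β : ℝ) (a : K → E) (H : ℕ) : Z → E :=
  (s ⁻¹' Set.Ioc α β).indicator fun z => (H : ℂ)⁻¹ • ∑ h ∈ Finset.range H,
    (l (S^[h] z) : ℂ) • ((itc u g h (y z))⁻¹ (a (u ^ h * y z)))

/-- `T_J a`: the limit of the averages in `L²(M; E)` -/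
noncomputable def TJ (M : Measure Z) (u : K) (S : Z ≃ᵐ Z) (y : Z → K) (s l : Z → ℝ)
    (g : K → (E ≃ₗᵢ[ℂ] E)) (α β : ℝ) (a : K → E) : Lp E 2 M :=
  limUnder atTop (fun H : ℕ => toH M (av u S y s l g α β a H))

/-- `B_J(a, b)` -/
noncomputable def BJ (M : Measure Z) (u : K) (S : Z ≃ᵐ Z) (y : Z → K) (s l : Z → ℝ)
    (g : K → (E ≃ₗᵢ[ℂ] E)) (α β : ℝ) (a b : K → E) : ℂ :=
  inner ℂ (TJ M u S y s l g α β a) (TJ M u S y s l g α β b)

/-- `V_q a` -/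
noncomputable def Vq (q : ℕ) (a : K → E) : K → E :=
  (Kq K q).indicator fun y => (q : ℂ) • a (rt q y)

/-- kernels of `T_J` -/
structure IsKer [MeasurableSpace K] [MeasurableSpace E] (m : Measure K) (M : Measure Z) (u : K)
    (S : Z ≃ᵐ Z) (y : Z → K) (s l : Z → ℝ) (g : K → (E ≃ₗᵢ[ℂ] E)) (α β : ℝ)
    (Φ : K → (E →L[ℂ] Lp E 2 M)) : Prop where
  sm : StronglyMeasurable Φ
  bdd : ∀ y, ‖Φ y‖ ≤ Real.sqrt (β - α)
  rep : ∀ a : K → E, BMf a → TJ M u S y s l g α β a = ∫ y, Φ y (a y) ∂m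

end hilb

end Pool.Agent.S7
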