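import Pool.Agent.S7.Defs
import Pool.Agent.S7K.K9
import Pool.Agent.S7e.Pnt

/-! S7 (MP_13664e_an): the theorems of block K in the form of the contract, from the library `S7K`. -/

set_option autoImplicit false

namespace Pool.Agent.S7

open MeasureTheory Filter Topology
open scoped ENNReal

section main

variable {K : Type*} [CommGroup K] [TopologicalSpace K] [IsTopologicalGroup K] [CompactSpace K]
  [T2Space K] [SecondCountableTopology K] [MeasurableSpace K] [BorelSpace K]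
  {u : K} {m : Measure K} [IsProbabilityMeasure m] [m.IsHaarMeasure]

omit [IsTopologicalGroup K] [CompactSpace K] [T2Space K] [SecondCountableTopology K]
  [MeasurableSpace K] [BorelSpace K] in
theorem KD.toK (h : KD K u) : S7K.KD K u := ⟨h.sep, h.dense, h.div, h.roots⟩

theorem chr_int (χ : PontryaginDual K) (hχ : χ ≠ 1) : ∫ y, ((χ y : Circle) : ℂ) ∂m = 0 :=
  S7K.int_ch m hχ

/-- ergodicity -/
theorem inv_set (hK : KD K u) {A : Set K} (hA : MeasurableSet A)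
    (h : ∀ᵐ y ∂m, (u * y ∈ A ↔ y ∈ A)) : m A = 0 ∨ m A = 1 := by
  have herg := S7K.ergodic_u m hK.sep hK.dense
  have h1 := herg.quasiErgodic.ae_empty_or_univ₀ hA.nullMeasurableSet (s := A) (by
    filter_upwards [h] with y hy
    exact propext hy)
  rcases h1 with h1 | h1
  · left
    rw [measure_congr h1, measure_empty]
  · right
    rw [measure_congr h1, measure_univ]

theorem inv_const (hK : KD K u) {V : Type*} [TopologicalSpace V] [T2Space V]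
    [SecondCountableTopology V] [MeasurableSpace V] [BorelSpace V] {f : K → V} (hf : Measurable f)
    (h : ∀ᵐ y ∂m, f (u * y) = f y) : ∃ v, ∀ᵐ y ∂m, f y = v := by
  have : Nonempty V := ⟨f 1⟩
  exact (S7K.ergodic_u m hK.sep hK.dense).ae_eq_const_of_ae_eq_comp₀ hf.nullMeasurable h

/-- mean ergodic theorem for the rotation -/
theorem mean_erg (hK : KD K u) {f : K → ℝ} (hf : MemLp f 2 m) :
    Tendsto (fun N : ℕ => ∫ y, ((N : ℝ)⁻¹ * ∑ n ∈ Finset.range N, f (u ^ n * y) - ∫ x, f x ∂m) ^ 2 ∂m)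
      atTop (𝓝 0) := by
  have h1 := S7K.mean_erg_real m hK.sep hK.dense hf
  have hfn : ∀ n : ℕ, MemLp (fun y => f (u ^ n * y)) 2 m := fun n =>
    hf.comp_measurePreserving (measurePreserving_mul_left m (u ^ n))
  have hmem : ∀ N : ℕ, MemLp (fun y => (N : ℝ)⁻¹ * ∑ n ∈ Finset.range N, f (u ^ n * y) -
      ∫ x, f x ∂m) 2 m := fun N =>
    ((memLp_finsetSum _ fun n _ => hfn n).const_mul _).sub (memLp_const _)
  have h2 : ∀ N : ℕ, ∫ y, ((N : ℝ)⁻¹ * ∑ n ∈ Finset.range N, f (u ^ n * y) -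
      ∫ x, f x ∂m) ^ 2 ∂m = (eLpNorm (fun y => (N : ℝ)⁻¹ * ∑ n ∈ Finset.range N,
        f (u ^ n * y) - ∫ x, f x ∂m) 2 m).toReal ^ 2 := by
    intro N
    rw [(hmem N).eLpNorm_eq_integral_rpow_norm two_ne_zero ENNReal.ofNat_ne_top]
    have h3 : ∀ y, ‖(N : ℝ)⁻¹ * ∑ n ∈ Finset.range N, f (u ^ n * y) - ∫ x, f x ∂m‖ ^
        (2 : ℝ≥0∞).toReal = ((N : ℝ)⁻¹ * ∑ n ∈ Finset.range N, f (u ^ n * y) -
          ∫ x, f x ∂m) ^ 2 := by
      intro y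
      rw [ENNReal.toReal_ofNat, Real.rpow_two, Real.norm_eq_abs, sq_abs]
    simp only [h3]
    have h4 : 0 ≤ ∫ y, ((N : ℝ)⁻¹ * ∑ n ∈ Finset.range N, f (u ^ n * y) -
        ∫ x, f x ∂m) ^ 2 ∂m := integral_nonneg fun y => sq_nonneg _
    rw [ENNReal.toReal_ofReal (by positivity), ENNReal.toReal_ofNat, ← Real.rpow_natCast,
      ← Real.rpow_mul h4]
    norm_num
  simp only [h2]
  have h5 := (ENNReal.tendsto_toReal ENNReal.zero_ne_top).comp h1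
  simpa using h5.pow 2

omit [IsTopologicalGroup K] [CompactSpace K] [T2Space K] [SecondCountableTopology K]
  [MeasurableSpace K] [BorelSpace K] in
theorem pow_inj (hK : KD K u) {q : ℕ} (hq : 1 ≤ q) : Function.Injective (fun x : K => x ^ q) :=
  S7K.pow_injective hK.toK hq

theorem Kq_open (hK : KD K u) {q : ℕ} (hq : 1 ≤ q) : IsOpen (Kq K q) ∧ IsClosed (Kq K q) := by
  have : NeZero q := ⟨by omega⟩
  exact ⟨(S7K.isClopen_Kp hK.toK q).isOpen, (S7K.isClopen_Kp hK.toK q).isClosed⟩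

theorem upow_mem (hK : KD K u) {q : ℕ} (hq : 1 ≤ q) (n : ℕ) : u ^ n ∈ Kq K q ↔ q ∣ n := by
  have : NeZero q := ⟨by omega⟩
  exact S7K.u_pow_mem hK.toK q n

omit [IsTopologicalGroup K] [CompactSpace K] [T2Space K] [SecondCountableTopology K]
  [MeasurableSpace K] [BorelSpace K] in
theorem rt_pow (hK : KD K u) {q : ℕ} (hq : 1 ≤ q) (x : K) : rt q (x ^ q) = x :=
  S7K.rt_pow hK.toK hq x

theorem rt_meas (hK : KD K u) {q : ℕ} (hq : 1 ≤ q) : Measurable (rt q : K → K) :=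
  S7K.measurable_rt hK.toK hq

theorem rt_cont (hK : KD K u) {q : ℕ} (hq : 1 ≤ q) : ContinuousOn (rt q : K → K) (Kq K q) :=
  S7K.continuousOn_rt hK.toK hq

/-- (PF) -/
theorem map_pow (hK : KD K u) {q : ℕ} (hq : 1 ≤ q) :
    m.map (fun x : K => x ^ q) = (q : ℝ≥0∞) • m.restrict (Kq K q) := by
  have : NeZero q := ⟨by omega⟩
  exact S7K.map_pow m hK.toK q

/-- every `y` is uniquely `u^j x^q`, `j < q` -/
theorem coset (hK : KD K u) {q : ℕ} (hq : 1 ≤ q) (y : K) : ∃! j : Fin q, ∃ x : K, y = u ^ (j : ℕ) * x ^ q := by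
  have : NeZero q := ⟨by omega⟩
  refine ⟨⟨(S7K.res u q y).val, ZMod.val_lt _⟩, ⟨_, (S7K.decomp hK.toK q y).2.symm⟩, ?_⟩
  rintro ⟨j, hj⟩ ⟨x, hx⟩
  have h1 := (S7K.decomp_unique hK.toK q hj x).1
  rw [← hx] at h1
  exact Fin.ext h1.symm

/-- dual Turan-Kubilius -/
theorem tk (hK : KD K u) {g : K → ℝ} (hg : MemLp g 2 m) (Q : Finset ℕ) (hQ : ∀ q ∈ Q, q.Prime) :
    ∑ q ∈ Q, (1 : ℝ) / q * (∫ y, g (y ^ q) ∂m - ∫ y, g y ∂m) ^ 2 ≤ ∫ y, g y ^ 2 ∂m :=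
  S7K.dual_tk m hK.toK hg Q hQ

theorem good (hK : KD K u) {g : K → ℝ} (hg : MemLp g 2 m) {δ : ℝ} (hδ : 0 < δ) :
    Thin {q : ℕ | δ < |∫ y, g (y ^ q) ∂m - ∫ y, g y ∂m|} := by
  obtain ⟨C, hC⟩ := S7K.thin_bad m hK.toK ({()} : Finset Unit) (fun _ => g) (fun _ _ => hg) hδ
  refine ⟨C, fun F hF hp => hC F fun q hq => ⟨hp q hq, (), Finset.mem_singleton_self _, hF hq⟩⟩

/-- K8 -/
theorem exists_muW (hK : KD K u) : ∃ μ : Measure K, IsProbabilityMeasure μ ∧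
    (∀ χ : PontryaginDual K, Tor χ → ∫ y, ((χ y : Circle) : ℂ) ∂μ = 1) ∧
    (∀ χ : PontryaginDual K, ¬ Tor χ → ∫ y, ((χ y : Circle) : ℂ) ∂μ = 0) := by
  refine ⟨S7K.muW K, S7K.isProbabilityMeasure_muW hK.toK, fun χ hχ => ?_, fun χ hχ => ?_⟩
  · exact S7K.int_muW_tor hK.toK (isOfFinOrder_iff_pow_eq_one.mpr hχ)
  · exact S7K.int_muW hK.toK fun h => hχ (isOfFinOrder_iff_pow_eq_one.mp h)

/-! ### block E (primes) -/

omit K in
theorem supply {B : Set ℕ} (hB : Thin B) {Q : ℕ} (hQ : 1 ≤ Q) {η : ℝ} (hη : 0 < η) (R P₀ : ℕ) :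
    ∃ (P : ℝ) (p : ℕ → ℕ), (P₀ : ℝ) ≤ P ∧ ∀ i ≤ R, (p i).Prime ∧ p i ∉ B ∧ p i % Q = 1 % Q ∧
      P * (1 + η) ^ (2 * i) ≤ p i ∧ (p i : ℝ) ≤ P * (1 + η) ^ (2 * i + 1) := by
  obtain ⟨C, hC⟩ := hB
  obtain ⟨P, hP, _, p, hp⟩ := S7e.prime_supply Q hQ η hη {q | q ∈ B ∧ q.Prime}
    ⟨C, fun F hF => hC F (fun q hq => (hF q hq).1) fun q hq => (hF q hq).2⟩ R P₀
  refine ⟨P, p, hP, fun i hi => ?_⟩
  obtain ⟨h1, h2, h3, h4, h5⟩ := hp i hi
  exact ⟨h1, fun h => h2 ⟨h, h1⟩, h3, h4, h5⟩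

end main

end Pool.Agent.S7
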