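import Pool.Agent.S7.Defs

/-! S7 (MP_13664e_an): the dual groups `K_G` of (discrete) subgroups `G` of the circle. -/

set_option autoImplicit false

namespace Pool.Agent.S7

open MeasureTheory Filter Topology

/-- a subgroup of the circle as a discrete group -/
def Dsc (G : Subgroup Circle) : Type := G

noncomputable instance (G : Subgroup Circle) : CommGroup (Dsc G) := inferInstanceAs (CommGroup G)

instance (G : Subgroup Circle) : TopologicalSpace (Dsc G) := ⊥

instance (G : Subgroup Circle) : DiscreteTopology (Dsc G) := ⟨rfl⟩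

instance (G : Subgroup Circle) [h : Countable G] : Countable (Dsc G) := h

/-- the compact group `K_G` -/
abbrev KG (G : Subgroup Circle) : Type := PontryaginDual (Dsc G)

noncomputable instance (G : Subgroup Circle) : MeasurableSpace (KG G) := borel _

instance (G : Subgroup Circle) : BorelSpace (KG G) := ⟨rfl⟩

instance (G : Subgroup Circle) [Countable G] : SecondCountableTopology (KG G) := by
  have h : Topology.IsInducing (ContinuousMonoidHom.toContinuousMap : (Dsc G →ₜ* Circle) → C(Dsc G, Circle)) :=
    ContinuousMonoidHom.isInducing_toContinuousMap _ _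
  exact h.secondCountableTopology

/-- the inclusion `G → Circle` as an element of `K_G` -/
noncomputable def uG (G : Subgroup Circle) : KG G :=
  ({ toMonoidHom := (G.subtype : G →* Circle)
     continuous_toFun := continuous_of_discreteTopology } : Dsc G →ₜ* Circle)

/-- `G` is saturated -/
def Sat (G : Subgroup Circle) : Prop := ∀ n : ℕ, 1 ≤ n → ∀ w : Circle, w ^ n ∈ G → w ∈ G

/-- restriction `K_G → K_{G'}` for `G' ≤ G` -/
noncomputable def resG {G' G : Subgroup Circle} (h : G' ≤ G) : KG G →ₜ* KG G' :=
  PontryaginDual.map ({ toMonoidHom := (Subgroup.inclusion h : G' →* G)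
                        continuous_toFun := continuous_of_discreteTopology } : Dsc G' →ₜ* Dsc G)

/-- saturation of a subgroup -/
def satG (G : Subgroup Circle) : Subgroup Circle where
  carrier := {w | ∃ n : ℕ, 1 ≤ n ∧ w ^ n ∈ G}
  one_mem' := ⟨1, le_rfl, by simp [G.one_mem]⟩
  mul_mem' := by
    rintro a b ⟨n, hn, ha⟩ ⟨k, hk, hb⟩
    refine ⟨n * k, Nat.mul_pos hn hk, ?_⟩
    rw [mul_pow, pow_mul, mul_comm n k, pow_mul]
    exact G.mul_mem (G.pow_mem ha k) (G.pow_mem hb n)
  inv_mem' := by
    rintro a ⟨n, hn, ha⟩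
    exact ⟨n, hn, by rw [inv_pow]; exact G.inv_mem ha⟩

/-- eigenvalues of the continuous eigenfunctions -/
def E0 {X : Type*} [TopologicalSpace X] (T : X ≃ₜ X) : Subgroup Circle where
  carrier := {w | ∃ e : C(X, Circle), ∀ x, e (T x) = w * e x}
  one_mem' := ⟨1, fun x => by simp⟩
  mul_mem' := by
    rintro a b ⟨e, he⟩ ⟨f, hf⟩
    exact ⟨e * f, fun x => by simp [he, hf, mul_mul_mul_comm]⟩
  inv_mem' := by
    rintro a ⟨e, he⟩
    exact ⟨e⁻¹, fun x => by simp [he, mul_comm]⟩

/-- minimal homeomorphisms -/
def IsMin {X : Type*} [TopologicalSpace X] (T : X ≃ₜ X) : Prop :=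
  ∀ F : Set X, IsClosed F → T '' F = F → F.Nonempty → F = Set.univ

end Pool.Agent.S7
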