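import Pool.Agent.S7b.Fin
import Pool.Agent.S7b.E2b
import Pool.Agent.S7e.Log

/-! S7 (MP_13664e_an): the final theorem. -/

set_option autoImplicit false

namespace Pool.Agent.S7

open Filter Topology

/-- (E2) from the theorem of Matomaki and Radziwill -/
theorem E2_holds : E2 :=
  E2_of fun w hw A ε hε => by
    simpa only [one_div] using
      S7e.si_log Mrd.lio Mrd.lio_CM.bdd S7e.si_lio w hw A ε hε

/-- every bounded minimal system satisfies the Sarnak conjecture -/
theorem final {X : Type*} [MetricSpace X] [CompactSpace X] [Nonempty X] [MeasurableSpace X]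
    [BorelSpace X] (T : X ≃ₜ X) (hT : IsMin T) (hB : Pool.Agent.Sar.BddSeqEnt T) (x : X)
    (g : C(X, ℂ)) :
    Tendsto (fun N : ℕ => (N : ℂ)⁻¹ * ∑ n ∈ Finset.Icc 1 N,
      g ((⇑T)^[n] x) * ((ArithmeticFunction.moebius n : ℤ) : ℂ)) atTop (𝓝 0) :=
  final_of_E2 E2_holds T hT hB x g

end Pool.Agent.S7
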